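import Mathlib
import Pool.Agent.W237.RK.Gal

set_option autoImplicit false
set_option linter.unusedVariables false

/-!
# The Kummer extension `K(Γ_div)` and an arbitrary Galois extension of `K`
-/

namespace Pool.Agent.Q246.FD

open Polynomial IntermediateField
open Pool.Agent.H58P (Qb ht)
open Pool.Agent.W237.RK

/-- `K(Γ^{1/N})` -/
noncomputable def rootF (K : GF) (Γ : Subgroup Qbˣ) (N : ℕ) : GF :=
  IntermediateField.adjoin ℚ ((K : Set Qb) ∪ {y | ∃ g ∈ Γ, y ^ N = (g : Qb)})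

/-- `K(Γ_div)` -/
noncomputable def divF (K : GF) (Γ : Subgroup Qbˣ) : GF :=
  IntermediateField.adjoin ℚ ((K : Set Qb) ∪ {y | DivG Γ y})

/-- `M` is of Kummer type at `p` over `K`: there is `τ` over `K` of order `p` on `M`, with
`σ τ σ⁻¹ = τ ^ χ_p(σ)` on `M` for all `σ` over `K` -/
def KT (K M : GF) (p : ℕ) : Prop :=
  ∃ τ : Aut, Fix K τ ∧ Fix M (τ ^ p) ∧ ¬ Fix M τ ∧
    ∀ σ : Aut, Fix K σ → ∀ c : ℕ, (∀ ζ : Qb, ζ ^ p = 1 → σ ζ = ζ ^ c) →
      ∀ x ∈ M, σ (τ x) = (τ ^ c) (σ x)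

lemma le_rootF (K : GF) (Γ : Subgroup Qbˣ) (N : ℕ) : K ≤ rootF K Γ N :=
  fun _ hx => subset_adjoin _ _ (Or.inl hx)

lemma le_divF (K : GF) (Γ : Subgroup Qbˣ) : K ≤ divF K Γ :=
  fun _ hx => subset_adjoin _ _ (Or.inl hx)

lemma rootF_mono (K : GF) (Γ : Subgroup Qbˣ) (N M : ℕ) : rootF K Γ N ≤ rootF K Γ (N * M) := by
  unfold rootF
  rw [adjoin_le_iff]
  rintro x (hx | ⟨g, hg, hx⟩)
  · exact subset_adjoin _ _ (Or.inl hx)
  · exact subset_adjoin _ _ (Or.inr ⟨g ^ M, Γ.pow_mem hg M, by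
      rw [pow_mul, hx, Units.val_pow_eq_pow_val]⟩)

lemma mem_divF {K : GF} {Γ : Subgroup Qbˣ} {x : Qb} (hx : x ∈ divF K Γ) :
    ∃ N : ℕ, 0 < N ∧ x ∈ rootF K Γ N := by
  unfold divF at hx
  induction hx using adjoin_induction with
  | mem x hx =>
    rcases hx with hx | ⟨n, hn, g, hg, hx⟩
    · exact ⟨1, one_pos, le_rootF K Γ 1 hx⟩
    · exact ⟨n, hn, subset_adjoin _ _ (Or.inr ⟨g, hg, hx⟩)⟩
  | algebraMap x => exact ⟨1, one_pos, (rootF K Γ 1).algebraMap_mem x⟩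
  | add x y _ _ hx hy =>
    obtain ⟨N, hN, hx⟩ := hx
    obtain ⟨M, hM, hy⟩ := hy
    refine ⟨N * M, Nat.mul_pos hN hM, add_mem (rootF_mono K Γ N M hx) ?_⟩
    rw [mul_comm]
    exact rootF_mono K Γ M N hy
  | inv x _ hx =>
    obtain ⟨N, hN, hx⟩ := hx
    exact ⟨N, hN, inv_mem hx⟩
  | mul x y _ _ hx hy =>
    obtain ⟨N, hN, hx⟩ := hx
    obtain ⟨M, hM, hy⟩ := hy
    refine ⟨N * M, Nat.mul_pos hN hM, mul_mem (rootF_mono K Γ N M hx) ?_⟩
    rw [mul_comm]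
    exact rootF_mono K Γ M N hy

lemma agree_adjoin {S : Set Qb} {σ σ' : Aut} (h : ∀ x ∈ S, σ x = σ' x) {x : Qb}
    (hx : x ∈ adjoin ℚ S) : σ x = σ' x := by
  induction hx using adjoin_induction with
  | mem x hx => exact h x hx
  | algebraMap x => rw [AlgEquiv.commutes, AlgEquiv.commutes]
  | add x y _ _ hx hy => rw [map_add, map_add, hx, hy]
  | inv x _ hx => rw [map_inv₀, map_inv₀, hx]
  | mul x y _ _ hx hy => rw [map_mul, map_mul, hx, hy]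

lemma tor_mem_full (K : GF) (Γ : Subgroup Qbˣ) (P : Finset ℕ) {x : Qb} (h : Tor x) :
    x ∈ fullField K Γ P := kinf_le_fullField K Γ P (tor_mem_kinf K h)

/-- the image of a radical -/
lemma kummer {K : GF} {Γ : Subgroup Qbˣ} (hΓ : ∀ g ∈ Γ, (g : Qb) ∈ K) {σ : Aut} (hσ : Fix K σ)
    {N : ℕ} {y : Qb} (hy : ∃ g ∈ Γ, y ^ N = (g : Qb)) : ∃ η : Qb, η ^ N = 1 ∧ σ y = η * y := by
  obtain ⟨g, hg, hy⟩ := hy
  have h1 : (σ y) ^ N = y ^ N := by
    rw [← map_pow, hy, hσ _ (hΓ g hg)]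
  have h2 : y ^ N ≠ 0 := by rw [hy]; exact g.ne_zero
  by_cases hN : N = 0
  · by_cases h0 : y = 0
    · exact ⟨1, one_pow _, by rw [h0, map_zero, mul_zero]⟩
    · exact ⟨σ y / y, by rw [hN, pow_zero], by rw [div_mul_cancel₀ _ h0]⟩
  · have h3 : y ≠ 0 := by
      rintro rfl
      exact h2 (zero_pow hN)
    exact ⟨σ y / y, by rw [div_pow, h1, div_self h2], by rw [div_mul_cancel₀ _ h3]⟩

lemma fact_split (P : Finset ℕ) (N : ℕ) (hN : 0 < N) :
    ∃ N₁ N₂ : ℕ, N = N₁ * N₂ ∧ Smooth P N₁ ∧ 0 < N₂ ∧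
      ∀ p : ℕ, p.Prime → p ∣ N₂ → p ∉ P := by
  induction N using Nat.strong_induction_on with
  | _ N ih =>
    by_cases h : ∃ p : ℕ, p.Prime ∧ p ∣ N ∧ p ∈ P
    · obtain ⟨p, hp, ⟨m, rfl⟩, hpP⟩ := h
      have hm : 0 < m := Nat.pos_of_mul_pos_left hN
      obtain ⟨N₁, N₂, h1, h2, h3, h4⟩ := ih m (by nlinarith [hp.two_le]) hm
      refine ⟨p * N₁, N₂, by rw [h1]; ring, ⟨Nat.mul_pos hp.pos h2.1, ?_⟩, h3, h4⟩
      intro q hq hqd
      rcases (hq.dvd_mul).1 hqd with h5 | h5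
      · rwa [(Nat.prime_dvd_prime_iff_eq hq hp).1 h5]
      · exact h2.2 q hq h5
    · push Not at h
      refine ⟨1, N, (one_mul N).symm, ⟨one_pos, ?_⟩, hN, fun p hp hpd => h p hp hpd⟩
      intro q hq hqd
      exact absurd (Nat.dvd_one.1 hqd) hq.one_lt.ne'

lemma exists_prim (n : ℕ) (hn : 0 < n) : ∃ ω : Qb, IsPrimitiveRoot ω n := by
  have : NeZero n := ⟨hn.ne'⟩
  exact HasEnoughRootsOfUnity.exists_primitiveRoot Qb n

lemma fix_pow_mod {M : GF} {τ : Aut} {p : ℕ} (h : Fix M (τ ^ p)) {a b : ℕ} (hab : a ≡ b [MOD p])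
    {x : Qb} (hx : x ∈ M) : (τ ^ a) x = (τ ^ b) x := by
  have key : ∀ a b : ℕ, a ≤ b → a ≡ b [MOD p] → (τ ^ a) x = (τ ^ b) x := by
    intro a b hle hab
    obtain ⟨k, hk⟩ := (Nat.modEq_iff_dvd' hle).1 hab
    have hb : b = a + p * k := by omega
    rw [hb, pow_add, pow_mul, AlgEquiv.mul_apply, fix_pow h k x hx]
  rcases le_total a b with h1 | h1
  · exact key a b h1 hab
  · exact (key b a h1 hab.symm).symm

lemma prim_modEq {ω : Qb} {p a b : ℕ} (hp : 0 < p) (h : IsPrimitiveRoot ω p) (hab : ω ^ a = ω ^ b) :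
    a ≡ b [MOD p] := by
  have key : ∀ a b : ℕ, a ≤ b → ω ^ a = ω ^ b → a ≡ b [MOD p] := by
    intro a b hle hab
    have h0 : ω ≠ 0 := h.ne_zero hp.ne'
    obtain ⟨k, rfl⟩ := Nat.exists_eq_add_of_le hle
    have h1 : ω ^ k = 1 := by
      rw [pow_add] at hab
      exact (mul_left_cancel₀ (pow_ne_zero a h0) (by rw [mul_one]; exact hab)).symm
    obtain ⟨m, rfl⟩ := h.dvd_of_pow_eq_one k h1
    exact (Nat.ModEq.symm (by
      unfold Nat.ModEq
      rw [Nat.add_mul_mod_self_left]))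
  rcases le_total a b with h1 | h1
  · exact key a b h1 hab
  · exact (key b a h1 hab.symm).symm

/-- powers of an automorphism on a radical, if it fixes the ratio -/
lemma pow_apply {τ : Aut} {ξ y : Qb} (h : τ y = ξ * y) (hξ : τ ξ = ξ) (k : ℕ) :
    (τ ^ k) y = ξ ^ k * y := by
  induction k with
  | zero => simp
  | succ k ih =>
    rw [pow_succ', AlgEquiv.mul_apply, ih, map_mul, map_pow, hξ, h]
    ring

lemma rootF_stable {K : GF} {Γ : Subgroup Qbˣ} (hΓ : ∀ g ∈ Γ, (g : Qb) ∈ K) (N : ℕ) :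
    NormalOver K (rootF K Γ N) := by
  intro σ hσ z hz
  unfold rootF at hz
  induction hz using adjoin_induction with
  | mem y hy =>
    rcases hy with hy | hy
    · rw [hσ y hy]; exact le_rootF K Γ N hy
    · obtain ⟨g, hg, hy⟩ := hy
      exact subset_adjoin _ _ (Or.inr ⟨g, hg, by rw [← map_pow, hy, hσ _ (hΓ g hg)]⟩)
  | algebraMap y => rw [AlgEquiv.commutes]; exact (rootF K Γ N).algebraMap_mem y
  | add a b ha hb iha ihb => rw [map_add]; exact add_mem iha ihb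
  | inv a ha iha => rw [map_inv₀]; exact inv_mem iha
  | mul a b ha hb iha ihb => rw [map_mul]; exact mul_mem iha ihb

/-- **The main lemma.** -/
theorem kum {K L : GF} {Γ : Subgroup Qbˣ} (hΓ : ∀ g ∈ Γ, (g : Qb) ∈ K) (P : Finset ℕ)
    (hKL : K ≤ L) (hL : NormalOver K L) {x : Qb} (hxL : x ∈ L) (hxd : x ∈ divF K Γ)
    (hxf : x ∉ fullField K Γ P) :
    ∃ p : ℕ, p.Prime ∧ p ∉ P ∧ ∃ M : GF, K ≤ M ∧ M ≤ L ∧ NormalOver K M ∧ KT K M p := by
  obtain ⟨N, hN, hxN⟩ := mem_divF hxd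
  obtain ⟨N₁, N₂, hNN, hN₁, hN₂, hN₂P⟩ := fact_split P N hN
  obtain ⟨τ, hτ, hτx⟩ : ∃ τ : Aut, Fix (fullField K Γ P) τ ∧ τ x ≠ x := by
    by_contra hcon
    push Not at hcon
    exact hxf (mem_of_fix _ _ hcon)
  have hτK : Fix K τ := fix_mono (le_fullField K Γ P) hτ
  set M : GF := L ⊓ rootF K Γ N with hM
  have hKM : K ≤ M := le_inf hKL (le_rootF K Γ N)
  have hML : M ≤ L := inf_le_left
  have hxM : x ∈ M := ⟨hxL, hxN⟩
  have hMn : NormalOver K M := fun σ hσ z hz => ⟨hL σ hσ z hz.1, rootF_stable hΓ N σ hσ z hz.2⟩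
  -- the action of `τ` on the radicals
  have hact : ∀ y : Qb, (∃ g ∈ Γ, y ^ N = (g : Qb)) →
      ∃ ξ : Qb, ξ ^ N₂ = 1 ∧ τ ξ = ξ ∧ τ y = ξ * y := by
    intro y hy
    obtain ⟨ξ, hξ, hξy⟩ := kummer hΓ hτK hy
    have hT : Tor ξ := ⟨N, hN, hξ⟩
    obtain ⟨g, hg, hgy⟩ := hy
    have hy0 : y ≠ 0 := by
      rintro rfl
      rw [zero_pow hN.ne'] at hgy
      exact g.ne_zero hgy.symm
    have h1 : y ^ N₂ ∈ fullField K Γ P := by
      refine (le_sup_right : _ ≤ fullField K Γ P) (subset_adjoin _ _ (Or.inr ?_))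
      exact ⟨N₁, hN₁, g, hg, by rw [← pow_mul, mul_comm, ← hNN, hgy]⟩
    have h2 := hτ _ h1
    rw [map_pow, hξy, mul_pow] at h2
    refine ⟨ξ, ?_, hτ _ (tor_mem_full K Γ P hT), hξy⟩
    exact mul_right_cancel₀ (pow_ne_zero N₂ hy0) (by rw [h2, one_mul])
  have hτN₂ : Fix (rootF K Γ N) (τ ^ N₂) := by
    intro z hz
    refine (agree_adjoin (σ' := 1) ?_ hz).trans rfl
    rintro y (hy | hy)
    · exact fix_pow hτK N₂ y hy
    · obtain ⟨ξ, hξ, hτξ, hξy⟩ := hact y hy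
      rw [pow_apply hξy hτξ, hξ, one_mul]
      rfl
  have hτN₂M : Fix M (τ ^ N₂) := fix_mono inf_le_right hτN₂
  -- the order of `τ` on `M`
  classical
  have hex : ∃ d : ℕ, 0 < d ∧ Fix M (τ ^ d) := ⟨N₂, hN₂, hτN₂M⟩
  set d := Nat.find hex with hd
  obtain ⟨hd0, hdM⟩ := Nat.find_spec hex
  have hd1 : d ≠ 1 := by
    intro h
    rw [← hd, h, pow_one] at hdM
    exact hτx (hdM x hxM)
  have hmin : ∀ e : ℕ, 0 < e → e < d → ¬ Fix M (τ ^ e) := fun e he0 hed hf =>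
    Nat.find_min hex hed ⟨he0, hf⟩
  have hdN₂ : d ∣ N₂ := by
    rw [Nat.dvd_iff_mod_eq_zero]
    by_contra hne
    refine hmin (N₂ % d) (Nat.pos_of_ne_zero hne) (Nat.mod_lt _ hd0) ?_
    intro z hz
    rw [fix_pow_mod hdM (Nat.mod_modEq N₂ d) hz]
    exact hτN₂M z hz
  set p := Nat.minFac d with hp
  have hpp : p.Prime := Nat.minFac_prime hd1
  obtain ⟨e, he⟩ : p ∣ d := Nat.minFac_dvd d
  have he0 : 0 < e := by
    rcases Nat.eq_zero_or_pos e with h | h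
    · rw [h, mul_zero] at he; omega
    · exact h
  have hed : e < d := by rw [he]; nlinarith [hpp.two_le]
  have hpP : p ∉ P := hN₂P p hpp ((Nat.minFac_dvd d).trans hdN₂)
  -- `N₂ = p ^ k u`
  obtain ⟨k, u, hpu, hku⟩ : ∃ k u : ℕ, ¬ p ∣ u ∧ N₂ = p ^ k * u :=
    Nat.exists_eq_pow_mul_and_not_dvd hN₂.ne' p hpp.one_lt.ne'
  have hpN₂ : p ∣ N₂ := (Nat.minFac_dvd d).trans hdN₂
  have hk0 : 0 < k := by
    rcases Nat.eq_zero_or_pos k with h | h
    · rw [h, pow_zero, one_mul] at hku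
      exact absurd (hku ▸ hpN₂) hpu
    · exact h
  set τ₂ : Aut := τ ^ (e * u) with hτ₂
  have hτ₂K : Fix K τ₂ := fix_pow hτK _
  have hτ₂p : Fix M (τ₂ ^ p) := by
    intro z hz
    have h1 : τ₂ ^ p = (τ ^ d) ^ u := by
      rw [hτ₂, ← pow_mul, ← pow_mul, he]
      congr 1
      ring
    rw [h1]
    exact fix_pow hdM u z hz
  have hτ₂n : ¬ Fix M τ₂ := by
    intro hf
    have hcop : Nat.Coprime u p := (hpp.coprime_iff_not_dvd.2 hpu).symm
    obtain ⟨m, -, hm⟩ := Nat.exists_mul_mod_eq_one_of_coprime hcop hpp.one_lt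
    have h1 : u * m ≡ 1 [MOD p] := by
      unfold Nat.ModEq
      rw [hm, Nat.mod_eq_of_lt hpp.one_lt]
    have h2 : Fix M ((τ ^ e) ^ p) := by
      rw [← pow_mul, mul_comm, ← he]
      exact hdM
    refine hmin e he0 hed ?_
    intro z hz
    have h3 := fix_pow_mod h2 h1 hz
    rw [pow_one] at h3
    rw [← h3, pow_mul, ← pow_mul τ]
    exact fix_pow hf m z hz
  refine ⟨p, hpp, hpP, M, hKM, hML, hMn, τ₂, hτ₂K, hτ₂p, hτ₂n, ?_⟩
  intro σ hσ c hc z hz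
  obtain ⟨ω, hω⟩ := exists_prim (p ^ k) (pow_pos hpp.pos k)
  have hσω : (σ ω) ^ (p ^ k) = 1 := by rw [← map_pow, hω.pow_eq_one, map_one]
  have : NeZero (p ^ k) := ⟨(pow_pos hpp.pos k).ne'⟩
  obtain ⟨c', -, hc'⟩ := hω.eq_pow_of_pow_eq_one hσω
  have hcc : c' ≡ c [MOD p] := by
    have h1 : IsPrimitiveRoot (ω ^ (p ^ (k - 1))) p := by
      refine hω.pow (pow_pos hpp.pos k) ?_
      rw [← pow_succ, Nat.sub_add_cancel hk0]
    have h2 := hc _ h1.pow_eq_one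
    rw [map_pow, ← hc', ← pow_mul, mul_comm, pow_mul] at h2
    exact prim_modEq hpp.pos h1 h2
  -- the relation on `rootF K Γ N`
  have hrel : ∀ z ∈ rootF K Γ N, (σ * τ₂) z = (τ₂ ^ c' * σ) z := by
    intro z hz
    refine agree_adjoin ?_ hz
    rintro y (hy | hy)
    · rw [AlgEquiv.mul_apply, AlgEquiv.mul_apply, hτ₂K y hy, hσ y hy, fix_pow hτ₂K c' y hy]
    · obtain ⟨ξ, hξ, hτξ, hξy⟩ := hact y hy
      obtain ⟨η, hη, hηy⟩ := kummer hΓ hσ hy
      have hτη : τ η = η := hτ _ (tor_mem_full K Γ P ⟨N, hN, hη⟩)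
      have hτ₂η : Fix (IntermediateField.adjoin ℚ {η}) τ₂ := by
        intro w hw
        refine (agree_adjoin (σ' := 1) ?_ hw).trans rfl
        intro w' hw'
        rw [Set.mem_singleton_iff.1 hw']
        have := pow_apply (τ := τ) (ξ := 1) (y := η) (by rw [hτη, one_mul]) (map_one _) (e * u)
        rw [one_pow, one_mul] at this
        exact this
      have hηm : η ∈ IntermediateField.adjoin ℚ {η} := subset_adjoin _ _ rfl
      have h2 : τ₂ y = ξ ^ (e * u) * y := pow_apply hξy hτξ (e * u)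
      have h3 : τ₂ (ξ ^ (e * u)) = ξ ^ (e * u) := by
        rw [map_pow]
        have := pow_apply (τ := τ) (ξ := 1) (y := ξ) (by rw [hτξ, one_mul]) (map_one _) (e * u)
        rw [one_pow, one_mul] at this
        rw [hτ₂, this]
      have h4 : (ξ ^ (e * u)) ^ (p ^ k) = 1 := by
        rw [← pow_mul, mul_assoc, mul_comm u, ← hku, mul_comm, pow_mul, hξ, one_pow]
      obtain ⟨j, -, hj⟩ := hω.eq_pow_of_pow_eq_one h4
      have h5 : σ (ξ ^ (e * u)) = (ξ ^ (e * u)) ^ c' := by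
        rw [← hj, map_pow, ← hc', ← pow_mul, ← pow_mul, mul_comm]
      rw [AlgEquiv.mul_apply, AlgEquiv.mul_apply, h2, map_mul, h5, hηy, map_mul,
        fix_pow hτ₂η c' η hηm, pow_apply h2 h3 c']
      ring
  have h6 := hrel z (inf_le_right (a := L) hz)
  rw [AlgEquiv.mul_apply, AlgEquiv.mul_apply] at h6
  rw [h6]
  exact fix_pow_mod hτ₂p hcc (hMn σ hσ z hz)

end Pool.Agent.Q246.FD
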