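import Mathlib
import Pool.Agent.Q246.FD.Main
import Pool.Agent.Q246.FD.Grp

set_option autoImplicit false
set_option linter.unusedVariables false

/-!
# From finite Galois groups to the condition on Kummer types
-/

namespace Pool.Agent.Q246.FD

open Polynomial IntermediateField
open Pool.Agent.H58P (Qb ht)
open Pool.Agent.W237.RK

variable {K : GF}

/-- an automorphism over `K` -/
noncomputable def up (σ : Aut) (h : Fix K σ) : Qb ≃ₐ[K] Qb :=
  AlgEquiv.ofRingEquiv (f := σ.toRingEquiv) (fun r => h r r.2)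

lemma up_apply (σ : Aut) (h : Fix K σ) (x : Qb) : up σ h x = σ x := rfl

/-- an automorphism over `K` as an automorphism -/
noncomputable def dn (σ : Qb ≃ₐ[K] Qb) : Aut := σ.restrictScalars ℚ

lemma dn_apply (σ : Qb ≃ₐ[K] Qb) (x : Qb) : dn σ x = σ x := rfl

lemma dn_fix (σ : Qb ≃ₐ[K] Qb) : Fix K (dn σ) := fun x hx => σ.commutes ⟨x, hx⟩

instance instNormalQb : Normal K Qb := by
  have : IsGalois K Qb := inferInstance
  infer_instance

/-- the restriction to a normal extension `L` of `K` -/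
noncomputable def res (L : IntermediateField K Qb) [Normal K L] (σ : Aut) (h : Fix K σ) :
    L ≃ₐ[K] L := (up σ h).restrictNormal L

lemma res_apply (L : IntermediateField K Qb) [Normal K L] (σ : Aut) (h : Fix K σ) (x : L) :
    ((res L σ h x : L) : Qb) = σ x := AlgEquiv.restrictNormal_commutes (up σ h) L x

lemma lft (L : IntermediateField K Qb) [Normal K L] (g : L ≃ₐ[K] L) :
    ∃ σ : Aut, Fix K σ ∧ ∀ x : L, σ (x : Qb) = (g x : Qb) :=
  ⟨dn (g.liftNormal Qb), dn_fix _, fun x => AlgEquiv.liftNormal_commutes g Qb x⟩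

lemma normalOver_of (L : IntermediateField K Qb) [Normal K L] :
    NormalOver K (L.restrictScalars ℚ) := by
  intro σ hσ x hx
  have h := res_apply L σ hσ ⟨x, hx⟩
  change σ x ∈ L
  rw [← h]
  exact (res L σ hσ ⟨x, hx⟩).2

lemma le_of (L : IntermediateField K Qb) : K ≤ L.restrictScalars ℚ := fun x hx =>
  L.algebraMap_mem ⟨x, hx⟩

lemma root_pow_mod {ζ : Qb} {p : ℕ} (hp : 0 < p) (h : IsPrimitiveRoot ζ p) (σ : Aut) :
    ∃ c : ℕ, ∀ ξ : Qb, ξ ^ p = 1 → σ ξ = ξ ^ c := by
  have : NeZero p := ⟨hp.ne'⟩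
  have h1 : (σ ζ) ^ p = 1 := by rw [← map_pow, h.pow_eq_one, map_one]
  obtain ⟨c, -, hc⟩ := h.eq_pow_of_pow_eq_one h1
  refine ⟨c, fun ξ hξ => ?_⟩
  obtain ⟨j, -, hj⟩ := h.eq_pow_of_pow_eq_one hξ
  rw [← hj, map_pow, ← hc, ← pow_mul, ← pow_mul, mul_comm]

/-- **The group theoretic criterion.** -/
theorem no_kt (L : IntermediateField K Qb) [FiniteDimensional K L] [IsGalois K L]
    (E : IntermediateField K L) [IsGalois K E] (hN : Group.IsNilpotent (L ≃ₐ[E] L)) {p : ℕ}
    (hp : p.Prime) (hpE : p ∣ Module.finrank K L → ∀ ζ : L, IsPrimitiveRoot ζ p → ζ ∉ E)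
    {M : GF} (hML : M ≤ L.restrictScalars ℚ) (hMn : NormalOver K M) : ¬ KT K M p := by
  rintro ⟨τ, hτK, hτp, hτn, hrel⟩
  have hstab : ∀ (g : L ≃ₐ[K] L) (x : L), (x : Qb) ∈ M → ((g x : L) : Qb) ∈ M := by
    intro g x hx
    obtain ⟨σ, hσ, hσg⟩ := lft L g
    rw [← hσg]
    exact hMn σ hσ _ hx
  let NM : Subgroup (L ≃ₐ[K] L) :=
    { carrier := {g | ∀ x : L, (x : Qb) ∈ M → g x = x}
      mul_mem' := by
        intro g h hg hh x hx
        rw [AlgEquiv.mul_apply, hh x hx, hg x hx]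
      one_mem' := fun x hx => rfl
      inv_mem' := by
        intro g hg x hx
        apply g.injective
        rw [← AlgEquiv.mul_apply, mul_inv_cancel, AlgEquiv.one_apply]
        exact (hg x hx).symm }
  have hNM : ∀ g : L ≃ₐ[K] L, g ∈ NM ↔ ∀ x : L, (x : Qb) ∈ M → g x = x := fun g => Iff.rfl
  have hNMn : NM.Normal := by
    refine ⟨fun g hg h => ?_⟩
    rw [hNM] at hg ⊢
    intro x hx
    rw [AlgEquiv.mul_apply, AlgEquiv.mul_apply, hg _ (hstab h⁻¹ x hx), ← AlgEquiv.mul_apply,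
      mul_inv_cancel, AlgEquiv.one_apply]
  set t : L ≃ₐ[K] L := res L τ hτK with ht
  have htpow : ∀ (k : ℕ) (x : L), (((t ^ k) x : L) : Qb) = (τ ^ k) x := by
    intro k
    induction k with
    | zero => intro x; rfl
    | succ k ih =>
      intro x
      rw [pow_succ', pow_succ', AlgEquiv.mul_apply, AlgEquiv.mul_apply, ← ih, ht, res_apply]
  have htp : t ^ p ∈ NM := by
    rw [hNM]
    intro x hx
    apply Subtype.ext
    rw [htpow]
    exact hτp _ hx
  have htn : t ∉ NM := by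
    intro h
    apply hτn
    intro x hx
    have h1 := (hNM t).1 h ⟨x, hML hx⟩ hx
    have h2 := congrArg (Subtype.val) h1
    rw [ht, res_apply] at h2
    exact h2
  -- divisibility
  have hdvd : p ∣ Module.finrank K L := by
    have : Fact p.Prime := ⟨hp⟩
    have h1 : orderOf (QuotientGroup.mk t : (L ≃ₐ[K] L) ⧸ NM) = p := by
      refine orderOf_eq_prime ?_ ?_
      · rw [← QuotientGroup.mk_pow, QuotientGroup.eq_one_iff]
        exact htp
      · intro h
        exact htn ((QuotientGroup.eq_one_iff t).1 h)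
    have h2 : p ∣ Nat.card ((L ≃ₐ[K] L) ⧸ NM) := by
      rw [← h1]
      exact orderOf_dvd_natCard _
    have h3 := h2.trans (Subgroup.card_quotient_dvd_card NM)
    rwa [IsGalois.card_aut_eq_finrank] at h3
  -- an automorphism over `E` which moves `ζ`
  obtain ⟨ζ, hζ⟩ := exists_prim p hp.pos
  obtain ⟨s, hsE, hsζ⟩ : ∃ s : Aut, Fix ((IntermediateField.lift E).restrictScalars ℚ) s ∧
      s ζ ≠ ζ := by
    by_contra hcon
    push Not at hcon
    have h1 : ζ ∈ (IntermediateField.lift E).restrictScalars ℚ := mem_of_fix _ _ hcon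
    have h2 : ζ ∈ IntermediateField.lift E := h1
    have h3 : ζ ∈ L := IntermediateField.lift_le E h2
    refine hpE hdvd ⟨ζ, h3⟩ ?_ ((IntermediateField.mem_lift (⟨ζ, h3⟩ : L)).1 h2)
    exact IsPrimitiveRoot.of_map_of_injective (f := L.val) (by exact hζ) L.val.injective
  have hsK : Fix K s := fix_mono (le_of (IntermediateField.lift E)) hsE
  obtain ⟨c, hc⟩ := root_pow_mod hp.pos hζ s
  have hc1 : ¬ c ≡ 1 [MOD p] := by
    intro h
    apply hsζ
    rw [hc ζ hζ.pow_eq_one]
    have h1 : ζ ^ c = ζ ^ 1 := by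
      rw [pow_eq_pow_mod c hζ.pow_eq_one, pow_eq_pow_mod 1 hζ.pow_eq_one, h]
    rw [h1, pow_one]
  set S : Subgroup (L ≃ₐ[K] L) := E.fixingSubgroup with hS
  have hSnil : Group.IsNilpotent S := (Group.isNilpotent_congr E.fixingSubgroupEquiv).2 hN
  have hSn : S.Normal := IsGalois.fixingSubgroup_normal_of_isGalois E
  set s' : L ≃ₐ[K] L := res L s hsK with hs'
  have hs'S : s' ∈ S := by
    rw [hS, IntermediateField.mem_fixingSubgroup_iff]
    intro x hx
    apply Subtype.ext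
    change ((s' x : L) : Qb) = x
    rw [hs', res_apply]
    exact hsE _ ((IntermediateField.mem_lift x).2 hx)
  have hcomm : ∀ x : L, (x : Qb) ∈ M → (s' * t) x = (t ^ c * s') x := by
    intro x hx
    apply Subtype.ext
    rw [AlgEquiv.mul_apply, AlgEquiv.mul_apply, htpow, hs', ht, res_apply, res_apply, res_apply]
    exact hrel s hsK c hc _ hx
  refine htn (nil_mem S NM hSnil hs'S hp htp ?_ hc1)
  rw [hNM]
  intro x hx
  set z : L := (t ^ c * s')⁻¹ x with hz
  have hzM : (z : Qb) ∈ M := hstab _ x hx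
  have h1 : (t ^ c * s') z = x := by
    rw [hz, ← AlgEquiv.mul_apply, mul_inv_cancel, AlgEquiv.one_apply]
  have h2 : s' * t * s'⁻¹ * (t ^ c)⁻¹ = (s' * t) * (t ^ c * s')⁻¹ := by group
  rw [h2, AlgEquiv.mul_apply, ← hz, hcomm z hzM, h1]

end Pool.Agent.Q246.FD
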