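import Mathlib
import Pool.Agent.Q246.FD.Brg

set_option autoImplicit false
set_option linter.unusedVariables false

/-!
# Definitions for the hand-ins, and the general theorems
-/

namespace Pool.Agent.Q246.FD

open Pool.Agent.H58P (Qb ht)
open Pool.Agent.W237.RK

/-- `β` lies in the division group of `Γ`: a positive power of `β` is an element of `Γ` -/
def InDivisionGroup (Γ : Subgroup (AlgebraicClosure ℚ)ˣ) (β : AlgebraicClosure ℚ) : Prop :=
  ∃ n : ℕ, 0 < n ∧ ∃ g ∈ Γ, β ^ n = (g : AlgebraicClosure ℚ)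

/-- `D_Γ(α)`: the degree of `α` over the field `ℚ(Γ_div)` generated by the division group of `Γ` -/
noncomputable def divisionDegree (Γ : Subgroup (AlgebraicClosure ℚ)ˣ) (α : AlgebraicClosure ℚ) : ℕ :=
  (minpoly (IntermediateField.adjoin ℚ {β : AlgebraicClosure ℚ | InDivisionGroup Γ β}) α).natDegree

/-- the height of `α / γ` is at least `1 / (A D_Γ(α) ^ A)` for every element `γ` of the division group
of `Γ`, if `α` is not zero and not in the division group -/
def HeightBound (Γ : Subgroup (AlgebraicClosure ℚ)ˣ) (A : ℕ) (α : AlgebraicClosure ℚ) : Prop :=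
  α ≠ 0 → ¬ InDivisionGroup Γ α → ∀ γ : AlgebraicClosure ℚ, InDivisionGroup Γ γ →
    1 / ((A : ℝ) * (divisionDegree Γ α : ℝ) ^ A) ≤ NumberField.absLogHeight₁ (α / γ)

/-- `M / K` is of Kummer type at `p`: there is an element `τ` of order `p` of `Gal(M / K)` with
`s τ s⁻¹ = τ ^ c` whenever `s` is the restriction of an automorphism `σ` of `ℚ̄` over `K` with
`σ ζ = ζ ^ c` for all `p`-th roots of unity `ζ` -/
def KummerType (K : IntermediateField ℚ (AlgebraicClosure ℚ))
    (M : IntermediateField K (AlgebraicClosure ℚ)) (p : ℕ) : Prop :=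
  ∃ τ : M ≃ₐ[K] M, orderOf τ = p ∧
    ∀ (σ : AlgebraicClosure ℚ ≃ₐ[K] AlgebraicClosure ℚ) (s : M ≃ₐ[K] M) (c : ℕ),
      (∀ x : M, ((s x : M) : AlgebraicClosure ℚ) = σ x) →
      (∀ ζ : AlgebraicClosure ℚ, ζ ^ p = 1 → σ ζ = ζ ^ c) → s * τ * s⁻¹ = τ ^ c

section

variable {K : GF}

lemma normal_ext {M : GF} (hKM : K ≤ M) (hMn : NormalOver K M) :
    Normal K (IntermediateField.extendScalars hKM) := by
  rw [IntermediateField.normal_iff_forall_map_le']
  rintro σ _ ⟨x, hx, rfl⟩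
  exact hMn (dn σ) (dn_fix σ) x hx

lemma kummerType_of {M : GF} (hKM : K ≤ M) (hMn : NormalOver K M) {p : ℕ} (hp : p.Prime)
    (h : KT K M p) : KummerType K (IntermediateField.extendScalars hKM) p := by
  obtain ⟨τ, hτK, hτp, hτn, hrel⟩ := h
  have hn := normal_ext hKM hMn
  set M' : IntermediateField K Qb := IntermediateField.extendScalars hKM with hM'
  set t : M' ≃ₐ[K] M' := res M' τ hτK with ht
  have htpow : ∀ (k : ℕ) (x : M'), (((t ^ k) x : M') : Qb) = (τ ^ k) x := by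
    intro k
    induction k with
    | zero => intro x; rfl
    | succ k ih =>
      intro x
      rw [pow_succ', pow_succ', AlgEquiv.mul_apply, AlgEquiv.mul_apply, ← ih, ht, res_apply]
  refine ⟨t, ?_, ?_⟩
  · have : Fact p.Prime := ⟨hp⟩
    refine orderOf_eq_prime ?_ ?_
    · ext x
      rw [htpow]
      exact hτp x x.2
    · intro h1
      apply hτn
      intro x hx
      have h2 := res_apply M' τ hτK ⟨x, hx⟩
      rw [← ht, h1] at h2
      exact h2.symm
  · intro σ s c hs hc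
    ext x
    set z : M' := s⁻¹ x with hz
    have hx : x = s z := by
      rw [hz, ← AlgEquiv.mul_apply, mul_inv_cancel, AlgEquiv.one_apply]
    rw [AlgEquiv.mul_apply, AlgEquiv.mul_apply, ← hz, hs, htpow, ht, res_apply, hx, hs]
    exact hrel (dn σ) (dn_fix σ) c hc z z.2

end

/-- the bound for `NoKT` -/
theorem base (K : GF) [FiniteDimensional ℚ K] (Γ : Subgroup Qbˣ) (hΓfg : Γ.FG)
    (hΓ : ∀ g ∈ Γ, (g : Qb) ∈ K) (P : Finset ℕ) :
    ∃ A : ℕ, 0 < A ∧ ∀ L : GF, K ≤ L → NormalOver K L → NoKT K L P →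
      ∀ α ∈ L, HeightBound Γ A α := by
  classical
  obtain ⟨A, hA, h⟩ := main K Γ inferInstance hΓfg hΓ (P.filter Nat.Prime)
    (fun p hp => (Finset.mem_filter.1 hp).2)
  refine ⟨A, hA, fun L hKL hL hno α hα hα0 hd γ hγ => ?_⟩
  refine h L hKL hL ?_ α hα hα0 hd γ hγ
  intro p hp hpP
  exact hno p hp (fun hm => hpP (Finset.mem_filter.2 ⟨hm, hp⟩))

/-- the criterion -/
theorem criterion (K : GF) [FiniteDimensional ℚ K] (Γ : Subgroup Qbˣ) (hΓfg : Γ.FG)
    (hΓ : ∀ g ∈ Γ, (g : Qb) ∈ K) (P : Finset ℕ) :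
    ∃ A : ℕ, 0 < A ∧ ∀ L : IntermediateField K Qb, IsGalois K L →
      (∀ p : ℕ, p.Prime → p ∉ P → ∀ M : IntermediateField K Qb, M ≤ L → IsGalois K M →
        ¬ KummerType K M p) →
      ∀ α ∈ L, HeightBound Γ A α := by
  obtain ⟨A, hA, h⟩ := base K Γ hΓfg hΓ P
  refine ⟨A, hA, fun L hL hno α hα => ?_⟩
  refine h (L.restrictScalars ℚ) (le_of L) (normalOver_of L) ?_ α hα
  intro p hp hpP M hKM hML hMn hKT
  have hn := normal_ext hKM hMn
  refine hno p hp hpP (IntermediateField.extendScalars hKM) hML ?_ (kummerType_of hKM hMn hp hKT)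
  exact { to_isSeparable := inferInstance, to_normal := hn }

/-- extensions `L / E / K` with `L / E` nilpotent -/
theorem nilp (K : GF) [FiniteDimensional ℚ K] (Γ : Subgroup Qbˣ) (hΓfg : Γ.FG)
    (hΓ : ∀ g ∈ Γ, (g : Qb) ∈ K) (P : Finset ℕ) :
    ∃ A : ℕ, 0 < A ∧ ∀ L : IntermediateField K Qb, FiniteDimensional K L → IsGalois K L →
      ∀ E : IntermediateField K L, IsGalois K E → Group.IsNilpotent (L ≃ₐ[E] L) →
      (∀ p : ℕ, p.Prime → p ∉ P → p ∣ Module.finrank K L → ∀ ζ : L, IsPrimitiveRoot ζ p →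
        ζ ∉ E) →
      ∀ α ∈ L, HeightBound Γ A α := by
  obtain ⟨A, hA, h⟩ := base K Γ hΓfg hΓ P
  refine ⟨A, hA, fun L hLfd hL E hE hN hP α hα => ?_⟩
  refine h (L.restrictScalars ℚ) (le_of L) (normalOver_of L) ?_ α hα
  intro p hp hpP M hKM hML hMn
  exact no_kt L E hN hp (hP p hp hpP) hML hMn

end Pool.Agent.Q246.FD
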