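import Mathlib

set_option autoImplicit false
set_option linter.unusedVariables false

/-!
# Fields which contain a `p`-th root of unity only for small `p`
-/

namespace Pool.Agent.Q246.FD

open Polynomial IntermediateField

/-- a field with a real embedding has no `p`-th root of unity for odd `p` -/
lemma real_root {E : Type*} [Field E] (φ : E →+* ℝ) {ζ : E} {p : ℕ} (hp : p.Prime)
    (h : IsPrimitiveRoot ζ p) : p = 2 := by
  by_contra hp2
  have hodd : Odd p := hp.odd_of_ne_two hp2
  have h1 : IsPrimitiveRoot (φ ζ) p := h.map_of_injective φ.injective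
  have h2 : (φ ζ) ^ p = 1 ^ p := by rw [h1.pow_eq_one, one_pow]
  have h3 : φ ζ = 1 := hodd.strictMono_pow.injective h2
  rw [h3] at h1
  have := h1.dvd_of_pow_eq_one 1 (one_pow 1)
  exact hp.one_lt.ne' (Nat.dvd_one.1 this)

/-- an odd prime `p` divides the discriminant of a number field which contains a primitive `p`-th
root of unity -/
lemma discr_root {E : Type*} [Field E] [NumberField E] {ζ : E} {p : ℕ} (hp : p.Prime)
    (hp2 : p ≠ 2) (h : IsPrimitiveRoot ζ p) : (p : ℤ) ∣ NumberField.discr E := by
  have : Fact p.Prime := ⟨hp⟩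
  have : NeZero p := ⟨hp.pos.ne'⟩
  have h1 : IsCyclotomicExtension {p} ℚ ℚ⟮ζ⟯ := h.intermediateField_adjoin_isCyclotomicExtension ℚ
  have h2 := NumberField.discr_dvd_discr ℚ⟮ζ⟯ E
  refine dvd_trans ?_ h2
  rw [IsCyclotomicExtension.Rat.discr_prime p ℚ⟮ζ⟯]
  refine Dvd.dvd.mul_left (dvd_pow_self _ ?_) _
  have := hp.two_le
  omega

/-- the order of the abelianization of the Galois group of an extension which contains a primitive
`p`-th root of unity -/
lemma ab_root {K E : Type*} [Field K] [NumberField K] [Field E] [Algebra K E]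
    [FiniteDimensional K E] [IsGalois K E] {ζ : E} {p : ℕ} (hp : p.Prime)
    (h : IsPrimitiveRoot ζ p) :
    p - 1 ≤ Nat.card (Abelianization (E ≃ₐ[K] E)) * Module.finrank ℚ K := by
  have : NeZero p := ⟨hp.pos.ne'⟩
  let f : (E ≃ₐ[K] E) →* (ZMod p)ˣ := h.autToPow K
  have hker : f.ker = K⟮ζ⟯.fixingSubgroup := by
    ext g
    rw [MonoidHom.mem_ker, IntermediateField.mem_fixingSubgroup_iff]
    have hspec := h.autToPow_spec K g
    constructor
    · intro hg x hx
      have hgζ : g ζ = ζ := by
        have h1 : (h.autToPow K g : ZMod p).val = (1 : ZMod p).val := by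
          change ((f g : (ZMod p)ˣ) : ZMod p).val = _
          rw [hg]
          rfl
        have : Fact (1 < p) := ⟨hp.one_lt⟩
        rw [← hspec, h1, ZMod.val_one, pow_one]
      induction hx using IntermediateField.adjoin_induction with
      | mem x hx => rw [Set.mem_singleton_iff.1 hx]; exact hgζ
      | algebraMap x => exact g.commutes x
      | add x y _ _ hx hy => rw [map_add, hx, hy]
      | inv x _ hx => rw [map_inv₀, hx]
      | mul x y _ _ hx hy => rw [map_mul, hx, hy]
    · intro hg
      have hgζ : g ζ = ζ := hg ζ (IntermediateField.mem_adjoin_simple_self K ζ)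
      rw [hgζ] at hspec
      apply Units.ext
      change ((h.autToPow K g : (ZMod p)ˣ) : ZMod p) = 1
      have : Fact (1 < p) := ⟨hp.one_lt⟩
      have h2 : ζ ^ ((h.autToPow K g : ZMod p)).val = ζ ^ 1 := by rw [hspec, pow_one]
      have h3 := h.pow_inj (ZMod.val_lt _) hp.one_lt h2
      apply ZMod.val_injective
      rw [h3, ZMod.val_one]
  have h1 : commutator (E ≃ₐ[K] E) ≤ f.ker := Abelianization.commutator_subset_ker f
  have h2 : Module.finrank K K⟮ζ⟯ = f.ker.index := by
    rw [hker]
    exact IntermediateField.finrank_eq_fixingSubgroup_index (F := K) (E' := E) (IntermediateField.adjoin K {ζ})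
  have h3 : f.ker.index ≤ Nat.card (Abelianization (E ≃ₐ[K] E)) := by
    have h4 := Subgroup.index_dvd_of_le h1
    have h5 : Nat.card (Abelianization (E ≃ₐ[K] E)) = (commutator (E ≃ₐ[K] E)).index := rfl
    rw [h5]
    exact Nat.le_of_dvd (Nat.pos_of_ne_zero Subgroup.index_ne_zero_of_finite) h4
  have hch : CharZero E := charZero_of_injective_algebraMap (algebraMap K E).injective
  have h6 : p - 1 ≤ Module.finrank ℚ K⟮ζ⟯ := by
    have hfd : FiniteDimensional ℚ K⟮ζ⟯ := FiniteDimensional.trans ℚ K K⟮ζ⟯
    have h7 := minpoly.natDegree_le (A := ℚ) (IntermediateField.AdjoinSimple.gen K ζ)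
    have h8 : IsPrimitiveRoot (IntermediateField.AdjoinSimple.gen K ζ) p :=
      IsPrimitiveRoot.of_map_of_injective (f := K⟮ζ⟯.val) (by simpa using h)
        K⟮ζ⟯.val.injective
    rw [← Polynomial.cyclotomic_eq_minpoly_rat h8 hp.pos, natDegree_cyclotomic,
      Nat.totient_prime hp] at h7
    exact h7
  rw [← Module.finrank_mul_finrank ℚ K K⟮ζ⟯, h2, mul_comm] at h6
  exact h6.trans (Nat.mul_le_mul_right _ h3)

end Pool.Agent.Q246.FD
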